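import Pool.Agent.MP_c6cf52_lc.W.Top

/-! Rectangles of type `κ * κ * ξ` below `κ * ξ` at a weakly compact cardinal. -/

open Cardinal

universe u

theorem Pool.Agent.Results.MP_c6cf52_lc.CompactSquare.result (κ : Cardinal.{u})
    (hκ : κ.IsInaccessible)
    (hwc : ∀ d : κ.ord.ToType → κ.ord.ToType → Fin 2, ∃ H : Set κ.ord.ToType, #H = κ ∧
      ∃ i : Fin 2, ∀ x ∈ H, ∀ y ∈ H, x < y → d x y = i)
    (m : ℕ) (ξ : Ordinal.{u}) (hξ : ξ < κ.ord)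
    (c : (Order.succ κ).ord.ToType → (Order.succ κ).ord.ToType → Fin m) :
    ∃ A B : Set (Order.succ κ).ord.ToType,
      Ordinal.type (fun x y : A => x < y) = κ.ord * κ.ord * ξ ∧
      Ordinal.type (fun x y : B => x < y) = κ.ord * ξ ∧
      (∀ a ∈ A, ∀ b ∈ B, a < b) ∧
      ∃ i : Fin m, ∀ a ∈ A, ∀ b ∈ B, c a b = i :=
  Pool.Agent.MP_c6cf52_lc.W.rect_succ hκ hwc c hξ
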