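import Pool.Agent.Mg.Fc6cf52.G5a9f60

/-! Square in square with three colours for the order types `κ + ξ`. -/

open Cardinal

universe u

theorem Pool.Agent.Results.MP_c6cf52_lc.KappaPlusXi.result (κ : Cardinal.{u}) (hκ : ℵ₀ ≤ κ)
    (hpow : κ ^< κ = κ) (ξ : Ordinal.{u})
    (hξ : ∀ θ : Cardinal.{u}, Order.succ θ < κ → θ ^ ξ.card < κ)
    (c : (Order.succ κ).ord.ToType → (Order.succ κ).ord.ToType → Fin 3) :
    ∃ A B : Set (Order.succ κ).ord.ToType,
      Ordinal.type (fun x y : A => x < y) = κ.ord + ξ ∧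
      Ordinal.type (fun x y : B => x < y) = κ.ord + ξ ∧
      ∃ i : Fin 3, ∀ a ∈ A, ∀ b ∈ B, c a b = i :=
  Pool.Agent.MP_c6cf52_lc.Sis.sis hκ hpow hξ c
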