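import Pool.Agent.MP_c6cf52_lc.N.Col

/-! Square in square fails at every successor cardinal `κ` with `κ ^< κ = κ`. -/

open Cardinal

universe u

theorem Pool.Agent.Results.MP_c6cf52_lc.SuccessorFails.result (μ κ θ : Cardinal.{u})
    (hμ : ℵ₀ ≤ μ) (hκ : κ = Order.succ μ) (hpow : κ ^< κ = κ) (hθ : 0 < θ) (hθκ : θ ≤ κ) :
    ∃ τ : Ordinal.{u}, τ = κ.ord * κ.ord + μ.ord * Ordinal.omega0 ∧ τ < (Order.succ κ).ord ∧
      ∃ c : (Order.succ κ).ord.ToType → (Order.succ κ).ord.ToType → θ.ord.ToType,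
        ∀ A B : Set (Order.succ κ).ord.ToType,
          Ordinal.type (fun x y : A => x < y) = τ → Ordinal.type (fun x y : B => x < y) = τ →
            ∀ i : θ.ord.ToType, ∃ a ∈ A, ∃ b ∈ B, c a b = i := by
  subst hκ
  have l := Order.lt_succ μ
  have i := hμ.trans l.le
  refine ⟨_, rfl, ?_, ?_⟩
  · rw [lt_ord, Order.lt_succ_iff, Ordinal.card_add, Ordinal.card_mul, Ordinal.card_mul, card_ord,
      card_ord, Ordinal.card_omega0, mul_eq_self i]
    exact (add_le_add le_rfl ((mul_le_mul' l.le i).trans (mul_eq_self i).le)).trans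
      (add_eq_self i).le
  · obtain ⟨c, hc⟩ := Pool.Agent.MP_c6cf52_lc.N.onto hμ hpow
    obtain ⟨e, idx, -, he⟩ := Pool.Agent.MP_c6cf52_lc.W.exists_enum (κ := Order.succ μ)
      (D := (Set.univ : Set θ.ord.ToType)) (by simpa using hθκ) (by
        rw [← Set.nonempty_coe_sort, ← mk_ne_zero_iff]
        simpa using hθ.ne')
    refine ⟨fun a b => e (c a b), fun A B hA hB j => ?_⟩
    obtain ⟨a, ha, b, hb, r⟩ := hc A B hA hB (idx j)
    exact ⟨a, ha, b, hb, (congrArg e r).trans (he j trivial)⟩
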